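import Pool.Agent.Lib.MP_8885f1_al.Main

set_option autoImplicit false

namespace Pool.Agent.Results.MP_8885f1_al.ClassCover

open Pool.Agent.Lib.MP_8885f1_al

theorem result (G : Type) [Group G] [Finite G] [Nontrivial G] (p : ℕ) (hp : p.Prime) (x : G)
    (hx : ∃ n : ℕ, orderOf x = p ^ n)
    (hgen : Subgroup.closure {y : G | ∃ g : G, y = g⁻¹ * x * g} = ⊤)
    (k : ℕ) (H : Fin k → Subgroup G) (hH : ∀ i, H i ≠ ⊤)
    (hcov : ∀ g : G, ∃ i, g⁻¹ * x * g ∈ H i) :
    p + 1 ≤ k := by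
  classical
  obtain ⟨n, hn⟩ := hx
  have h := main hp (⊤ : Subgroup G) x (Subgroup.mem_top x)
    ⟨n, by rw [← hn]; exact pow_orderOf_eq_one x⟩ ?_ (Finset.univ.image H) ?_ ?_
  · refine h.trans (Finset.card_image_le.trans ?_)
    simp
  · intro N h1 _ h3
    apply top_le_iff.mp
    rw [← hgen, Subgroup.closure_le]
    rintro y ⟨g, rfl⟩
    have := h3 g⁻¹ (Subgroup.mem_top _) x h1
    rwa [inv_inv] at this
  · intro K hK hle
    obtain ⟨i, _, rfl⟩ := Finset.mem_image.mp hK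
    exact hH i (top_le_iff.mp hle)
  · intro t _
    obtain ⟨i, hi⟩ := hcov t⁻¹
    rw [inv_inv] at hi
    exact ⟨H i, Finset.mem_image_of_mem H (Finset.mem_univ i), hi⟩

end Pool.Agent.Results.MP_8885f1_al.ClassCover
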