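import Pool.Agent.Lib.MP_8885f1_al.PSolv
import Pool.Agent.Lib.MP_8885f1_al.Aff

set_option autoImplicit false

namespace Pool.Agent.Results.MP_8885f1_al.PSolvableCover

/-- `G` has a series of normal subgroups from the trivial subgroup to `G` in which the order of
every factor is a power of `p` or is not divisible by `p`. -/
def PSolvable (p : ℕ) (G : Type) [Group G] : Prop :=
  ∃ (m : ℕ) (N : ℕ → Subgroup G), N 0 = ⊥ ∧ N m = ⊤ ∧ (∀ i, (N i).Normal) ∧
    ∀ i < m, N i ≤ N (i + 1) ∧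
      ((∃ a : ℕ, (N i).relIndex (N (i + 1)) = p ^ a) ∨ ¬ p ∣ (N i).relIndex (N (i + 1)))

open Pool.Agent.Lib.MP_8885f1_al in
theorem result (p : ℕ) (hp : p.Prime) (k : ℕ) :
    (∃ (G : Type) (_ : Group G) (_ : Finite G) (_ : Nontrivial G) (x : G), PSolvable p G ∧
      (∃ n : ℕ, orderOf x = p ^ n) ∧
      Subgroup.closure {y : G | ∃ g : G, y = g⁻¹ * x * g} = ⊤ ∧
      ∃ H : Fin k → Subgroup G, (∀ i, H i ≠ ⊤) ∧ ∀ g : G, ∃ i, g⁻¹ * x * g ∈ H i) ↔
    ∃ q : ℕ, IsPrimePow q ∧ q ≡ 1 [MOD p] ∧ q ≤ k := by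
  classical
  constructor
  · rintro ⟨G, _, _, _, x, ⟨m, N, h0, hm, hn, hi⟩, ⟨n, hx⟩, hgen, H, hH, hcov⟩
    obtain ⟨q, h1, h2, h3⟩ := lower (n := n) hp (hx ▸ pow_orderOf_eq_one x)
      (fun K h1 _ h3 => top_le_iff.1 <| hgen ▸ (Subgroup.closure_le K).2 <| by
        rintro y ⟨g, rfl⟩
        simpa using h3 g⁻¹ trivial x h1)
      m N h0 hm hn (fun i h => (hi i h).2) (Finset.univ.image H)
      (fun K hK hle => by
        obtain ⟨i, -, rfl⟩ := Finset.mem_image.1 hK
        exact hH i (top_le_iff.1 hle))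
      (fun t => by
        obtain ⟨i, h⟩ := hcov t⁻¹
        exact ⟨H i, Finset.mem_image_of_mem H (Finset.mem_univ i), by simpa using h⟩)
    exact ⟨q, h1, h2, h3.trans (Finset.card_image_le.trans (by simp))⟩
  · rintro ⟨q, h1, h2, h3⟩
    obtain ⟨r, a, hr, ha, rfl⟩ := (isPrimePow_nat_iff q).1 h1
    have := Fact.mk hr
    have := Fact.mk hp
    have hF := GaloisField.card r a ha.ne'
    obtain ⟨ζ, hζ⟩ := exists_prime_orderOf_dvd_card' (G := (GaloisField r a)ˣ) p (by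
      rw [Nat.card_units, hF]
      exact (Nat.modEq_iff_dvd' h1.one_lt.le).1 h2.symm)
    let x : Subgroup.zpowers ζ := ⟨ζ, Subgroup.mem_zpowers ζ⟩
    have hx : orderOf x = p := (Subgroup.orderOf_mk _ _).trans hζ
    have := Fintype.ofFinite (GaloisField r a)
    obtain ⟨f⟩ := Function.Embedding.nonempty_of_card_le (α := GaloisField r a) (β := Fin k)
      (by rwa [← Nat.card_eq_fintype_card, hF, Fintype.card_fin])
    refine ⟨Aff (Subgroup.zpowers ζ), inferInstance, inferInstance,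
      ⟨⟨1, 1⟩, 1, fun h => one_ne_zero (congrArg Aff.b h)⟩, Aff.sec x,
      ⟨2, fun i => match i with
        | 0 => ⊥
        | 1 => Aff.lin.ker
        | _ + 2 => ⊤, rfl, rfl, ?_, ?_⟩,
      ⟨1, (orderOf_injective _ (fun _ _ h => congrArg Aff.u h) x).trans (hx.trans (pow_one p).symm)⟩,
      Aff.gen x (fun h => hp.one_lt.ne' (by rw [← hx, h, orderOf_one])) ?_,
      fun i => Aff.stab (Function.invFun f i), fun i => Aff.stab_ne _, fun g => ⟨f g⁻¹.b, ?_⟩⟩
    · rintro (_ | _ | i) <;> infer_instance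
    · rintro (_ | _ | i) hi
      · refine ⟨bot_le, .inr fun h => ?_⟩
        rw [Subgroup.relIndex_bot_left, Aff.card_ker, hF] at h
        exact hp.one_lt.ne' (Nat.dvd_one.1 ((h2.dvd_iff dvd_rfl).1 h))
      · exact ⟨le_top, .inl ⟨1, by
          rw [Subgroup.relIndex_top_right, Aff.index_ker, Nat.card_zpowers, hζ, pow_one]⟩⟩
      · omega
    · rintro ⟨_, n, rfl⟩
      exact ⟨n, rfl⟩
    · simp only [Function.leftInverse_invFun f.injective _]
      exact Aff.conj_mem x g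

end Pool.Agent.Results.MP_8885f1_al.PSolvableCover
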